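import Pool.Agent.Helper27.CB.St

/-!
# Project CB: module CRA (the covariogram in polar coordinates)
-/

set_option autoImplicit false

open MeasureTheory Set
open scoped ENNReal Pointwise

namespace Pool.Agent.Helper15.CB

open Pool.Agent.Helper27.CB

/-- the integral of the covariogram -/
theorem cra_total (K : Set P2) (hK : MeasurableSet K) :
    Measurable (fun z : P2 => volume {x : P2 | x ∈ K ∧ x + z ∈ K}) ∧
    (∫⁻ z : P2, volume {x : P2 | x ∈ K ∧ x + z ∈ K}) = volume K ^ 2 := by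
  obtain ⟨S, hSd⟩ : ∃ S : Set (P2 × P2), S = {w | w.2 ∈ K ∧ w.2 + w.1 ∈ K} := ⟨_, rfl⟩
  have hS : MeasurableSet S := by
    rw [hSd]
    exact (measurable_snd hK).inter ((measurable_snd.add measurable_fst) hK)
  have hg : ∀ z : P2, {x : P2 | x ∈ K ∧ x + z ∈ K} = Prod.mk z ⁻¹' S := by
    intro z
    rw [hSd]
    rfl
  have hmeas : Measurable (fun z : P2 => volume {x : P2 | x ∈ K ∧ x + z ∈ K}) := by
    simp only [hg]
    exact measurable_measure_prodMk_left hS
  refine ⟨hmeas, ?_⟩
  have h1 : (∫⁻ z : P2, volume {x : P2 | x ∈ K ∧ x + z ∈ K}) =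
      ((volume : Measure P2).prod (volume : Measure P2)) S := by
    rw [Measure.prod_apply hS]
    simp only [hg]
  rw [h1, Measure.prod_apply_symm hS]
  have h2 : ∀ x : P2, volume ((fun z : P2 => (z, x)) ⁻¹' S) = K.indicator (fun _ => volume K) x := by
    intro x
    rw [hSd]
    by_cases hx : x ∈ K
    · rw [indicator_of_mem hx]
      have : (fun z : P2 => (z, x)) ⁻¹' {w : P2 × P2 | w.2 ∈ K ∧ w.2 + w.1 ∈ K} =
          (fun z : P2 => x + z) ⁻¹' K := by
        ext z
        simp [hx]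
      rw [this, measure_preimage_add]
    · rw [indicator_of_notMem hx]
      have : (fun z : P2 => (z, x)) ⁻¹' {w : P2 × P2 | w.2 ∈ K ∧ w.2 + w.1 ∈ K} = ∅ := by
        ext z
        simp [hx]
      rw [this, measure_empty]
  simp only [h2]
  rw [lintegral_indicator hK, setLIntegral_const, sq]

theorem hCRA : StCRA := by
  intro K hK
  obtain ⟨hmeas, htot⟩ := cra_total K hK.isClosed.measurableSet
  rw [← htot, ← lintegral_comp_polarCoord_symm]
  have htarget : polarCoord.target = Ioi (0 : ℝ) ×ˢ Ioo (-Real.pi) Real.pi := rfl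
  have hsymm : ∀ p : ℝ × ℝ, polarCoord.symm p = (p.1 * Real.cos p.2, p.1 * Real.sin p.2) :=
    fun p => rfl
  obtain ⟨G, hG⟩ : ∃ G : ℝ × ℝ → ℝ≥0∞, G = fun p => ENNReal.ofReal p.1 •
      volume {x : P2 | x ∈ K ∧ x + polarCoord.symm p ∈ K} := ⟨_, rfl⟩
  have hGm : Measurable G := by
    rw [hG]
    have h1 : Measurable (fun p : ℝ × ℝ => polarCoord.symm p) := by
      simp only [hsymm]
      fun_prop
    have h2 : Measurable (fun p : ℝ × ℝ => volume {x : P2 | x ∈ K ∧ x + polarCoord.symm p ∈ K}) :=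
      hmeas.comp h1
    have h3 : Measurable (fun p : ℝ × ℝ => ENNReal.ofReal p.1) :=
      ENNReal.measurable_ofReal.comp measurable_fst
    exact h3.mul h2
  have h3 : (∫⁻ p in polarCoord.target, G p) =
      ∫⁻ φ in Ioo (-Real.pi) Real.pi, ∫⁻ r in Ioi (0 : ℝ), G (r, φ) := by
    rw [htarget, Measure.volume_eq_prod, ← Measure.prod_restrict, lintegral_prod_symm' _ hGm]
  rw [hG] at h3
  rw [h3]
  rfl

end Pool.Agent.Helper15.CB
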