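import Pool.Agent.Helper27.CB.St

/-!
# Project CB: module CRB (the covariogram on one ray)
-/

set_option autoImplicit false

open MeasureTheory Set
open scoped ENNReal Pointwise

namespace Pool.Agent.Helper15.CB

open Pool.Agent.Helper27.CB

/-- rotations preserve the area -/
theorem crb_rot (φ : ℝ) (S : Set P2) : volume (rot φ ⁻¹' S) = volume S := by
  obtain ⟨f, hf⟩ : ∃ f : ℝ × ℝ →ₗ[ℝ] ℝ × ℝ, f =
    Matrix.toLin (Module.Basis.finTwoProd ℝ) (Module.Basis.finTwoProd ℝ)
      !![Real.cos φ, -Real.sin φ; Real.sin φ, Real.cos φ] := ⟨_, rfl⟩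
  have hdet : LinearMap.det f = 1 := by
    rw [hf, LinearMap.det_toLin, Matrix.det_fin_two_of]
    nlinarith [Real.sin_sq_add_cos_sq φ]
  have hfr : (f : ℝ × ℝ → ℝ × ℝ) = rot φ := by
    funext q
    rw [hf, Matrix.toLin_finTwoProd_apply]
    unfold rot
    ext <;> simp <;> ring
  have h1 := Measure.addHaar_preimage_linearMap (volume : Measure (ℝ × ℝ)) (f := f)
    (by rw [hdet]; exact one_ne_zero) S
  rw [hdet, hfr] at h1
  simpa using h1

theorem crb_add (φ r : ℝ) (q : P2) :
    rot φ (q.1 + r, q.2) = rot φ q + (r * Real.cos φ, r * Real.sin φ) := by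
  unfold rot
  ext <;> simp <;> ring

/-- one slice -/
theorem crb_slice {L : Set P2} (hL : Bd L) (τ r : ℝ) (hr : 0 < r) :
    volume {t : ℝ | (t, τ) ∈ L ∧ (t + r, τ) ∈ L} = ENNReal.ofReal (len L τ - r) := by
  obtain ⟨S, hS⟩ : ∃ S : Set ℝ, S = {t : ℝ | (t, τ) ∈ L} := ⟨_, rfl⟩
  have hcl : IsClosed S := by
    rw [hS]
    exact hL.cpt.isClosed.preimage (by fun_prop : Continuous fun t : ℝ => (t, τ))
  have hsub : S ⊆ Prod.fst '' L := by
    rw [hS]
    exact fun t ht => ⟨(t, τ), ht, rfl⟩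
  have hcpt : IsCompact S := (hL.cpt.image continuous_fst).of_isClosed_subset hcl hsub
  have hcvx : Convex ℝ S := by
    intro x hx y hy a b ha hb hab
    rw [hS] at hx hy ⊢
    have := hL.cvx hx hy ha hb hab
    have e : a • ((x, τ) : P2) + b • ((y, τ) : P2) = (a • x + b • y, τ) := by
      ext
      · simp
      · simp only [Prod.smul_mk, Prod.mk_add_mk, smul_eq_mul]
        rw [← add_mul, hab, one_mul]
    rw [e] at this
    exact this
  have hlen : len L τ = (volume S).toReal := by rw [hS]; rfl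
  have hset : {t : ℝ | (t, τ) ∈ L ∧ (t + r, τ) ∈ L} = {t | t ∈ S ∧ t + r ∈ S} := by
    rw [hS]; rfl
  rw [hset, hlen]
  rcases S.eq_empty_or_nonempty with h | h
  · rw [h]
    simp only [mem_empty_iff_false, false_and, setOf_false, measure_empty, ENNReal.toReal_zero]
    rw [ENNReal.ofReal_of_nonpos (by linarith)]
  · have hI := eq_Icc_of_connected_compact ⟨h, hcvx.isPreconnected⟩ hcpt
    obtain ⟨a, b, hab, hSI⟩ : ∃ a b : ℝ, a ≤ b ∧ S = Icc a b := by
      refine ⟨sInf S, sSup S, ?_, hI⟩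
      obtain ⟨x, hx⟩ := h
      rw [hI] at hx
      exact hx.1.trans hx.2
    rw [hSI, Real.volume_Icc, ENNReal.toReal_ofReal (by linarith)]
    have : {t : ℝ | t ∈ Icc a b ∧ t + r ∈ Icc a b} = Icc a (b - r) := by
      ext t
      simp only [mem_setOf_eq, mem_Icc]
      constructor
      · rintro ⟨⟨h1, h2⟩, h3, h4⟩
        exact ⟨h1, by linarith⟩
      · rintro ⟨h1, h2⟩
        exact ⟨⟨h1, by linarith⟩, by linarith, by linarith⟩
    rw [this, Real.volume_Icc]
    congr 1
    ring

/-- the inner integral -/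
theorem crb_int (l : ℝ) (hl : 0 ≤ l) :
    (∫⁻ r in Ioi (0 : ℝ), ENNReal.ofReal r * ENNReal.ofReal (l - r)) = ENNReal.ofReal (l ^ 3 / 6) := by
  have h1 : (∫⁻ r in Ioi (0 : ℝ), ENNReal.ofReal r * ENNReal.ofReal (l - r)) =
      ∫⁻ r in Ioc (0 : ℝ) l, ENNReal.ofReal (r * (l - r)) := by
    have h2 : (∫⁻ r in Ioi (0 : ℝ), ENNReal.ofReal r * ENNReal.ofReal (l - r)) =
        ∫⁻ r in Ioi (0 : ℝ), (Iic l).indicator (fun r => ENNReal.ofReal (r * (l - r))) r := by
      apply setLIntegral_congr_fun measurableSet_Ioi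
      intro r hr
      have hr' : (0 : ℝ) < r := hr
      by_cases h : r ∈ Iic l
      · simp only [indicator_of_mem h]
        rw [ENNReal.ofReal_mul hr'.le]
      · simp only [indicator_of_notMem h]
        have h3 : l < r := not_le.1 h
        rw [ENNReal.ofReal_of_nonpos (p := l - r) (by linarith), mul_zero]
    rw [h2, setLIntegral_indicator measurableSet_Iic]
    congr 2
    ext t
    simp only [mem_inter_iff, mem_Iic, mem_Ioi, mem_Ioc]
    tauto
  have h4 : (∫ r in (0 : ℝ)..l, r * (l - r)) = l ^ 3 / 6 := by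
    have h5 : ∀ x ∈ uIcc (0 : ℝ) l, HasDerivAt (fun x : ℝ => l * (x ^ 2 / 2) - x ^ 3 / 3)
        (x * (l - x)) x := by
      intro x _
      have h6 := ((hasDerivAt_pow 2 x).div_const 2).const_mul l
      have h7 := (hasDerivAt_pow 3 x).div_const 3
      have h8 := h6.sub h7
      refine h8.congr_deriv ?_
      simp
      ring
    rw [intervalIntegral.integral_eq_sub_of_hasDerivAt h5]
    · ring
    · exact (by fun_prop : Continuous fun r : ℝ => r * (l - r)).intervalIntegrable 0 l
  rw [h1, ← h4, intervalIntegral.integral_of_le hl, ofReal_integral_eq_lintegral_ofReal]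
  · exact (by fun_prop : Continuous fun r : ℝ => r * (l - r)).integrableOn_Ioc
  · refine (ae_restrict_iff' measurableSet_Ioc).2 (Filter.Eventually.of_forall fun t ht => ?_)
    have h9 : 0 ≤ l - t := by linarith [ht.2]
    exact mul_nonneg ht.1.le h9

theorem hCRB (hRBD : StRBD) (hSLC : StSLC) : StCRB := by
  intro K hK φ
  obtain ⟨L, hLd⟩ : ∃ L : Set P2, L = rb K φ := ⟨_, rfl⟩
  have hL : Bd L := by rw [hLd]; exact (hRBD K hK φ).1
  rw [← hLd]
  obtain ⟨c1, c2, c3, c4⟩ := hSLC L hL
  have hLm : MeasurableSet L := hL.cpt.isClosed.measurableSet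
  -- the covariogram in coordinates
  have hcov : ∀ r ∈ Ioi (0 : ℝ), ENNReal.ofReal r *
      volume {x : P2 | x ∈ K ∧ x + (r * Real.cos φ, r * Real.sin φ) ∈ K} =
      ∫⁻ τ : ℝ, ENNReal.ofReal r * ENNReal.ofReal (len L τ - r) := by
    intro r hr
    have hr' : (0 : ℝ) < r := hr
    rw [lintegral_const_mul _ (by fun_prop)]
    congr 1
    rw [← crb_rot φ]
    have h1 : rot φ ⁻¹' {x : P2 | x ∈ K ∧ x + (r * Real.cos φ, r * Real.sin φ) ∈ K} =
        {q : P2 | q ∈ L ∧ (q.1 + r, q.2) ∈ L} := by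
      ext q
      rw [hLd]
      simp only [mem_preimage, mem_setOf_eq, rb]
      rw [crb_add]
    have h2 : MeasurableSet {q : P2 | q ∈ L ∧ (q.1 + r, q.2) ∈ L} :=
      hLm.inter ((by fun_prop : Measurable fun q : P2 => (q.1 + r, q.2)) hLm)
    rw [h1, Measure.volume_eq_prod, Measure.prod_apply_symm h2]
    refine lintegral_congr fun τ => ?_
    exact crb_slice hL τ r hr'
  rw [setLIntegral_congr_fun measurableSet_Ioi hcov]
  rw [lintegral_lintegral_swap (by
    apply Measurable.aemeasurable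
    unfold Function.uncurry
    have h1 : Measurable fun p : ℝ × ℝ => ENNReal.ofReal p.1 :=
      ENNReal.measurable_ofReal.comp measurable_fst
    have h2 : Measurable fun p : ℝ × ℝ => ENNReal.ofReal (len L p.2 - p.1) :=
      ENNReal.measurable_ofReal.comp ((c2.comp measurable_snd).sub measurable_fst)
    exact h1.mul h2)]
  have h3 : ∀ τ : ℝ, (∫⁻ r in Ioi (0 : ℝ), ENNReal.ofReal r * ENNReal.ofReal (len L τ - r)) =
      ENNReal.ofReal (len L τ ^ 3 / 6) := fun τ => crb_int _ (c3 τ).1
  simp only [h3]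
  rw [← integral_div, ofReal_integral_eq_lintegral_ofReal]
  · -- integrability
    have hsupp : Function.support (fun τ => len L τ ^ 3 / 6) ⊆ Prod.snd '' L := by
      intro τ hτ
      by_contra h
      apply hτ
      simp only
      rw [c4 τ h]
      norm_num
    have hcp : IsCompact (Prod.snd '' L) := hL.cpt.image continuous_snd
    rw [← integrableOn_iff_integrable_of_support_subset hsupp]
    refine Measure.integrableOn_of_bounded (M := ho L ^ 3 / 6) hcp.measure_lt_top.ne
      ((c2.pow_const 3).div_const 6).aestronglyMeasurable ?_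
    refine Filter.Eventually.of_forall fun τ => ?_
    have h4 := c3 τ
    have h5 : 0 ≤ len L τ ^ 3 := pow_nonneg h4.1 3
    rw [Real.norm_of_nonneg (by positivity)]
    have h6 : len L τ ^ 3 ≤ ho L ^ 3 := pow_le_pow_left₀ h4.1 h4.2 3
    linarith
  · exact Filter.Eventually.of_forall fun τ => div_nonneg (pow_nonneg (c3 τ).1 3) (by norm_num)

end Pool.Agent.Helper15.CB
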