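import Pool.Agent.Helper27.CB.St

/-!
# Project CB: module LAY (layer cake formulas)
-/

set_option autoImplicit false

open MeasureTheory Set
open scoped ENNReal Pointwise

namespace Pool.Agent.Helper15.CB

open Pool.Agent.Helper27.CB

/-- slices have finite measure -/
theorem lay_fin {L : Set P2} (hL : Bd L) (τ : ℝ) : volume {t : ℝ | (t, τ) ∈ L} ≠ ⊤ := by
  have h1 : IsCompact (Prod.fst '' L) := hL.cpt.image continuous_fst
  have h2 : {t : ℝ | (t, τ) ∈ L} ⊆ Prod.fst '' L := fun t ht => ⟨(t, τ), ht, rfl⟩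
  exact ((measure_mono h2).trans_lt h1.measure_lt_top).ne

theorem lay_one {L : Set P2} (hL : Bd L) : (∫ τ, len L τ) = vl L := by
  have hm : MeasurableSet L := hL.cpt.isClosed.measurableSet
  have hmm : Measurable (fun τ : ℝ => volume {t : ℝ | (t, τ) ∈ L}) :=
    measurable_measure_prodMk_right hm
  unfold len vl
  rw [integral_toReal hmm.aemeasurable
    (Filter.Eventually.of_forall fun τ => (lay_fin hL τ).lt_top)]
  rw [Measure.volume_eq_prod, Measure.prod_apply_symm hm]
  rfl

theorem lay_gen (hSLC : StSLC) (hSLK : StSLK) {L : Set P2} (hL : Bd L) (n : ℕ) :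
    (∫ τ, len L τ ^ (n + 1)) = ((n : ℝ) + 1) * ∫ s in (0 : ℝ)..ho L, s ^ n * wd L s := by
  obtain ⟨c1, c2, c3, c4⟩ := hSLC L hL
  obtain ⟨k1, k2, k3, k4, k5, k6, k7, k8⟩ := hSLK L hL
  -- the level sets
  obtain ⟨W, hW⟩ : ∃ W : ℝ → ℝ≥0∞, W = fun s => volume {τ : ℝ | s ≤ len L τ} := ⟨_, rfl⟩
  have hWa : Antitone W := by
    intro s s' h
    rw [hW]
    exact measure_mono fun τ hτ => le_trans h hτ
  have hWm : Measurable W := hWa.measurable
  have hset : ∀ s : ℝ, 0 < s → hs L s = {τ : ℝ | s ≤ len L τ} := by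
    intro s h
    ext τ
    rw [c1 τ s h.le, mem_setOf_eq]
    refine ⟨fun h1 => h1.2, fun h1 => ⟨?_, h1⟩⟩
    by_contra h2
    rw [c4 τ h2] at h1
    linarith
  have hWs : ∀ s : ℝ, 0 < s → volume (hs L s) = W s := by
    intro s h
    rw [hW, hset s h]
  have hWf : ∀ s : ℝ, 0 < s → W s ≠ ⊤ := by
    intro s h
    rw [← hWs s h]
    exact (k1 s).1.measure_lt_top.ne
  -- layer cake
  have hpow : ∀ l : ℝ, (∫ t in (0 : ℝ)..l, ((n : ℝ) + 1) * t ^ n) = l ^ (n + 1) := by
    intro l
    rw [intervalIntegral.integral_const_mul, integral_pow]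
    have : ((n : ℝ) + 1) ≠ 0 := by positivity
    field_simp
    simp
  have hlay := lintegral_comp_eq_lintegral_meas_le_mul (volume : Measure ℝ) (f := len L)
    (g := fun t => ((n : ℝ) + 1) * t ^ n) (Filter.Eventually.of_forall fun τ => (c3 τ).1)
    c2.aemeasurable (fun t _ => (by fun_prop : Continuous fun t : ℝ => ((n : ℝ) + 1) * t ^ n).intervalIntegrable 0 t)
    ((ae_restrict_iff' measurableSet_Ioi).2 (Filter.Eventually.of_forall fun t ht => by
      have : (0 : ℝ) < t := ht
      positivity))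
  simp only [hpow] at hlay
  -- restriction to `s ≤ ho L`
  have hcut : (∫⁻ t in Ioi (0 : ℝ), volume {a : ℝ | t ≤ len L a} * ENNReal.ofReal (((n : ℝ) + 1) * t ^ n)) =
      ∫⁻ t in Ioc (0 : ℝ) (ho L), ENNReal.ofReal (((n : ℝ) + 1) * (t ^ n * (W t).toReal)) := by
    have h1 : (∫⁻ t in Ioi (0 : ℝ), volume {a : ℝ | t ≤ len L a} * ENNReal.ofReal (((n : ℝ) + 1) * t ^ n)) =
        ∫⁻ t in Ioi (0 : ℝ), (Iic (ho L)).indicator
          (fun t => volume {a : ℝ | t ≤ len L a} * ENNReal.ofReal (((n : ℝ) + 1) * t ^ n)) t := by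
      apply setLIntegral_congr_fun measurableSet_Ioi
      intro t ht
      by_cases h : t ∈ Iic (ho L)
      · simp only [indicator_of_mem h]
      · simp only [indicator_of_notMem h]
        have h2 : ho L < t := not_le.1 h
        rw [← hset t ht, k3 t h2, measure_empty, zero_mul]
    rw [h1, setLIntegral_indicator measurableSet_Iic]
    have h3 : Iic (ho L) ∩ Ioi (0 : ℝ) = Ioc 0 (ho L) := by
      ext t
      simp only [mem_inter_iff, mem_Iic, mem_Ioi, mem_Ioc]
      tauto
    rw [h3]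
    apply setLIntegral_congr_fun measurableSet_Ioc
    intro t ht
    have h4 : volume {a : ℝ | t ≤ len L a} = W t := by rw [hW]
    simp only
    rw [h4]
    nth_rewrite 1 [← ENNReal.ofReal_toReal (hWf t ht.1)]
    rw [← ENNReal.ofReal_mul ENNReal.toReal_nonneg]
    congr 1
    ring
  rw [hcut] at hlay
  have hho : 0 ≤ ho L := k7.le
  -- left side
  have hl : (∫ τ, len L τ ^ (n + 1)) = (∫⁻ τ, ENNReal.ofReal (len L τ ^ (n + 1))).toReal := by
    rw [integral_eq_lintegral_of_nonneg_ae]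
    · exact Filter.Eventually.of_forall fun τ => pow_nonneg (c3 τ).1 _
    · exact (c2.pow_const _).aestronglyMeasurable
  rw [hl, hlay, intervalIntegral.integral_of_le hho]
  have hr : (∫ s in Ioc (0 : ℝ) (ho L), s ^ n * wd L s) =
      ∫ s in Ioc (0 : ℝ) (ho L), s ^ n * (W s).toReal := by
    apply setIntegral_congr_fun measurableSet_Ioc
    intro s hs'
    simp only
    unfold wd
    rw [hWs s hs'.1]
  rw [hr, ← integral_const_mul, integral_eq_lintegral_of_nonneg_ae]
  · refine (ae_restrict_iff' measurableSet_Ioc).2 (Filter.Eventually.of_forall fun t ht => ?_)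
    have : (0 : ℝ) < t := ht.1
    have h2 : 0 ≤ (W t).toReal := ENNReal.toReal_nonneg
    positivity
  · exact (((measurable_id.pow_const n).mul hWm.ennreal_toReal).const_mul _).aestronglyMeasurable

theorem hLAY (hSLC : StSLC) (hSLK : StSLK) : StLAY := by
  intro L hL
  have h1 := lay_one hL
  have h2 := lay_gen hSLC hSLK hL 0
  have h3 := lay_gen hSLC hSLK hL 2
  refine ⟨h1, ?_, ?_⟩
  · simp only [zero_add, pow_one, Nat.cast_zero, pow_zero, one_mul] at h2
    rw [← h2, h1]
  · rw [h3]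
    norm_num

end Pool.Agent.Helper15.CB
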